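import Pool.Agent.H69.LQ.Lib
import Pool.Agent.H69.LNN.Targets2

/-!
# LMQ: quantitative dimension-free local minimality
-/

set_option autoImplicit false

open MeasureTheory Metric Set
open scoped ENNReal

namespace Pool.Agent.H29.LNN

open Pool.Agent.H85.LK (E adm lam Ann)
open Pool.Agent.H69.LQ Pool.Agent.H69.LNN

theorem pf_LMQ (hLMQ0 : T_LMQ0) (hCN : T_CN) (hCAP : T_CAP) (hTR : T_TR) : T_LMQ := by
  obtain ⟨κ₀, c, N₀, hκ₀, hc, hN₀, h0⟩ := hLMQ0
  obtain ⟨κ₁, N₁, hκ₁, hN₁, h1⟩ := hCN κ₀ hκ₀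
  refine ⟨κ₁, c, max N₀ N₁, hκ₁, hc, hN₀.trans (le_max_left _ _), ?_⟩
  intro N L Ω z hN hFz hΩ hvol hsym
  have hN0 : N₀ ≤ N := (le_max_left _ _).trans hN
  have hN1 : N₁ ≤ N := (le_max_right _ _).trans hN
  have hN3 : 3 ≤ N := hN₀.trans hN0
  have hfin : volume Ω ≠ ⊤ := by
    rw [hvol]
    exact measure_ball_lt_top.ne
  obtain ⟨o, ho1, ho2⟩ := h1 N Ω z hN1 hΩ hfin hsym
  refine ⟨o, fun γ hγ => ?_⟩
  have hne : Nonempty (Fin N) := ⟨⟨0, by omega⟩⟩
  have hnt : Nontrivial (E N) := by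
    refine ⟨⟨EuclideanSpace.single ⟨0, by omega⟩ 1, 0, ?_⟩⟩
    intro h
    have := congrArg (fun v : E N => v ⟨0, by omega⟩) h
    simp at this
  set Ω' : Set (E N) := (fun x => o + x) ⁻¹' Ω with hΩ'
  have hmp : MeasurePreserving (fun x : E N => o + x) volume volume :=
    measurePreserving_add_left volume o
  have hopen' : IsOpen Ω' := hΩ.preimage (continuous_const.add continuous_id)
  have hnull : volume ({0} : Set (E N)) = 0 := measure_singleton _
  have hae : (Ω' \ {0} : Set (E N)) =ᵐ[volume] Ω' := diff_null_ae_eq_self hnull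
  have hv' : volume Ω' = volume Ω := hmp.measure_preimage hΩ.measurableSet.nullMeasurableSet
  have hball : (fun x : E N => o + x) ⁻¹' ball o 1 = ball (0 : E N) 1 := by
    ext x
    simp [mem_ball, dist_eq_norm]
  have hs' : symmDiff Ω' (ball (0 : E N) 1) =
      (fun x : E N => o + x) ⁻¹' (symmDiff Ω (ball o 1)) := by
    rw [← hball]
    rfl
  have hae2 : (symmDiff (Ω' \ {0}) (ball (0 : E N) 1) : Set (E N)) =ᵐ[volume]
      symmDiff Ω' (ball (0 : E N) 1) :=
    hae.symmDiff (Filter.EventuallyEq.refl _ _)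
  have hsm : MeasurableSet (symmDiff Ω (ball o 1)) :=
    hΩ.measurableSet.symmDiff measurableSet_ball
  have e3 : volume.real (symmDiff (Ω' \ {0}) (ball (0 : E N) 1)) =
      volume.real (symmDiff Ω (ball o 1)) := by
    have e0 : volume (symmDiff Ω' (ball (0 : E N) 1)) = volume (symmDiff Ω (ball o 1)) := by
      rw [hs']
      exact hmp.measure_preimage hsm.nullMeasurableSet
    have e1 : volume (symmDiff (Ω' \ {0}) (ball (0 : E N) 1)) =
        volume (symmDiff Ω (ball o 1)) := (measure_congr hae2).trans e0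
    exact congrArg ENNReal.toReal e1
  have hkey : ∀ ε : ℝ, 0 < ε →
      L + c * N * (volume.real (symmDiff Ω (ball o 1)) / vB N) ^ 2 ≤ γ + ε := by
    intro ε hε
    rw [← e3]
    refine h0 N L (γ + ε) (Ω' \ {0}) hN0 hFz (hopen'.sdiff isClosed_singleton) ?_ ?_ ?_ ?_ ?_
    · rw [measure_congr hae, hv', hvol]
    · rw [e3]
      exact ho1
    · intro i
      have e2 : ∫ x in Ω' \ {0}, x i * Real.exp (-(N / 4) * ‖x‖ ^ 2) =
          ∫ x in Ω', x i * Real.exp (-(N / 4) * ‖x‖ ^ 2) := setIntegral_congr_set hae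
      have e4 := hmp.setIntegral_preimage_emb (measurableEmbedding_addLeft o)
        (fun x : E N => (x i - o i) * Real.exp (-(N / 4) * ‖x - o‖ ^ 2)) Ω
      rw [e2, ← ho2 i, ← e4]
      refine setIntegral_congr_fun hopen'.measurableSet fun x _ => ?_
      simp
    · simp
    · refine hCAP N (N + 1) Ω' 0 γ ε hN3 (by omega) hopen' ?_ hε
      rw [hΩ', hTR N (N + 1) o Ω]
      exact hγ
  exact le_of_forall_pos_le_add hkey

end Pool.Agent.H29.LNN
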